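import Pool.Agent.Helper70.LA.Defs

/-!
# Base library: averages over bit strings, mixing, conditional averages
-/

set_option autoImplicit false
set_option linter.unusedSectionVars false

namespace Pool.Agent.Helper70.LA

open Finset

section base

variable {K : Type} [Fintype K] [DecidableEq K]

theorem av_add (f g : (K → Bool) → ℝ) : av (fun x => f x + g x) = av f + av g := by
  unfold av
  rw [Finset.sum_add_distrib, add_div]

theorem av_sub (f g : (K → Bool) → ℝ) : av (fun x => f x - g x) = av f - av g := by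
  unfold av
  rw [Finset.sum_sub_distrib, sub_div]

theorem av_neg (f : (K → Bool) → ℝ) : av (fun x => - f x) = - av f := by
  unfold av
  rw [Finset.sum_neg_distrib, neg_div]

theorem av_mul_left (c : ℝ) (f : (K → Bool) → ℝ) : av (fun x => c * f x) = c * av f := by
  unfold av
  rw [← Finset.mul_sum, mul_div_assoc]

theorem av_mul_right (c : ℝ) (f : (K → Bool) → ℝ) : av (fun x => f x * c) = av f * c := by
  unfold av
  rw [← Finset.sum_mul, div_mul_eq_mul_div]

theorem card_fun_pos : (0 : ℝ) < 2 ^ Fintype.card K := by positivity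

theorem av_const (c : ℝ) : av (fun _ : K → Bool => c) = c := by
  unfold av
  rw [Finset.sum_const, Finset.card_univ, Fintype.card_fun, Fintype.card_bool, nsmul_eq_mul]
  push_cast
  field_simp

theorem av_sum {β : Type} (s : Finset β) (F : β → (K → Bool) → ℝ) :
    av (fun x => ∑ b ∈ s, F b x) = ∑ b ∈ s, av (F b) := by
  unfold av
  rw [Finset.sum_comm, Finset.sum_div]

theorem av_mono {f g : (K → Bool) → ℝ} (h : ∀ x, f x ≤ g x) : av f ≤ av g := by
  unfold av
  exact div_le_div_of_nonneg_right (Finset.sum_le_sum fun x _ => h x) card_fun_pos.le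

theorem av_nonneg {f : (K → Bool) → ℝ} (h : ∀ x, 0 ≤ f x) : 0 ≤ av f := by
  unfold av
  exact div_nonneg (Finset.sum_nonneg fun x _ => h x) card_fun_pos.le

theorem av_eq_zero {f : (K → Bool) → ℝ} (h : ∀ x, 0 ≤ f x) (h0 : av f = 0) (x : K → Bool) :
    f x = 0 := by
  unfold av at h0
  rw [div_eq_zero_iff] at h0
  rcases h0 with h0 | h0
  · exact (Finset.sum_eq_zero_iff_of_nonneg fun _ _ => h _).1 h0 x (Finset.mem_univ x)
  · exact absurd h0 (ne_of_gt card_fun_pos)

theorem abs_av_le (f : (K → Bool) → ℝ) : |av f| ≤ av fun x => |f x| := by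
  unfold av
  rw [abs_div, abs_of_pos card_fun_pos]
  exact div_le_div_of_nonneg_right (Finset.abs_sum_le_sum_abs _ _) card_fun_pos.le

theorem av_comm (F : (K → Bool) → (K → Bool) → ℝ) :
    (av fun x => av fun y => F x y) = av fun y => av fun x => F x y := by
  unfold av
  rw [← Finset.sum_div, ← Finset.sum_div, Finset.sum_comm]

theorem av_mul_sq_le (f g : (K → Bool) → ℝ) :
    (av fun x => f x * g x) ^ 2 ≤ av (fun x => f x ^ 2) * av (fun x => g x ^ 2) := by
  unfold av
  rw [div_pow, div_mul_div_comm, ← sq]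
  exact div_le_div_of_nonneg_right (Finset.sum_mul_sq_le_sq_mul_sq _ _ _) (by positivity)

theorem av_sq_nonneg (f : (K → Bool) → ℝ) : 0 ≤ av fun x => f x ^ 2 :=
  av_nonneg fun x => sq_nonneg _

theorem av_mul_le_sqrt (f g : (K → Bool) → ℝ) :
    |av fun x => f x * g x| ≤ √(av fun x => f x ^ 2) * √(av fun x => g x ^ 2) := by
  rw [← Real.sqrt_mul (av_sq_nonneg f)]
  exact Real.abs_le_sqrt (av_mul_sq_le f g)

theorem av_abs_mul_le (f g : (K → Bool) → ℝ) :
    (av fun x => |f x * g x|) ≤ √(av fun x => f x ^ 2) * √(av fun x => g x ^ 2) := by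
  have h := av_mul_le_sqrt (fun x => |f x|) (fun x => |g x|)
  simp only [sq_abs] at h
  refine le_trans ?_ h
  have h2 : (fun x => |f x * g x|) = fun x => |f x| * |g x| := by
    ext x; exact abs_mul _ _
  rw [h2]
  exact le_abs_self _

theorem av_abs_le_sqrt (f : (K → Bool) → ℝ) : (av fun x => |f x|) ≤ √(av fun x => f x ^ 2) := by
  have h := av_abs_mul_le f (fun _ => 1)
  simpa [av_const] using h

/-- Cauchy-Schwarz for pairs with a nonnegative weight -/
theorem av_av_mul_sq_le (w f g : (K → Bool) → (K → Bool) → ℝ) (hw : ∀ x y, 0 ≤ w x y) :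
    (av fun x => av fun y => w x y * (f x y * g x y)) ^ 2 ≤
      (av fun x => av fun y => w x y * f x y ^ 2) * (av fun x => av fun y => w x y * g x y ^ 2) := by
  have key : ∀ F : (K → Bool) → (K → Bool) → ℝ, (av fun x => av fun y => F x y)
      = (∑ p : (K → Bool) × (K → Bool), F p.1 p.2) / (2 ^ Fintype.card K * 2 ^ Fintype.card K) := by
    intro F
    unfold av
    rw [← Finset.sum_div, div_div, Fintype.sum_prod_type]
  rw [key, key, key, div_pow, div_mul_div_comm,
    ← sq ((2 : ℝ) ^ Fintype.card K * 2 ^ Fintype.card K)]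
  refine div_le_div_of_nonneg_right ?_ (by positivity)
  have h := Finset.sum_mul_sq_le_sq_mul_sq (Finset.univ : Finset ((K → Bool) × (K → Bool)))
    (fun p => √(w p.1 p.2) * f p.1 p.2) (fun p => √(w p.1 p.2) * g p.1 p.2)
  have e1 : ∀ p : (K → Bool) × (K → Bool), √(w p.1 p.2) * f p.1 p.2 * (√(w p.1 p.2) * g p.1 p.2)
      = w p.1 p.2 * (f p.1 p.2 * g p.1 p.2) := by
    intro p
    have := Real.mul_self_sqrt (hw p.1 p.2)
    calc _ = (√(w p.1 p.2) * √(w p.1 p.2)) * (f p.1 p.2 * g p.1 p.2) := by ring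
      _ = _ := by rw [this]
  have e2 : ∀ (F : (K → Bool) → (K → Bool) → ℝ) (p : (K → Bool) × (K → Bool)),
      (√(w p.1 p.2) * F p.1 p.2) ^ 2 = w p.1 p.2 * F p.1 p.2 ^ 2 := by
    intro F p
    rw [mul_pow, Real.sq_sqrt (hw p.1 p.2)]
  simp only [e1, e2] at h
  exact h

theorem mix_self (U : Finset K) (x : K → Bool) : mix U x x = x := by
  funext k; simp [mix]

theorem mix_empty (x y : K → Bool) : mix ∅ x y = x := by
  funext k; simp [mix]

theorem mix_swap (U : Finset K) (x y : K → Bool) : mix U (mix U x y) (mix U y x) = x := by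
  funext k
  by_cases h : k ∈ U <;> simp [mix, h]

theorem mix_mix (U V : Finset K) (x y z : K → Bool) :
    mix V (mix U x y) z = mix (U ∪ V) x (mix V y z) := by
  funext k
  by_cases h : k ∈ U <;> by_cases h' : k ∈ V <;> simp [mix, h, h']

theorem mix_mix_of_subset {U V : Finset K} (h : U ⊆ V) (x y z : K → Bool) :
    mix V (mix U x y) z = mix V x z := by
  funext k
  by_cases h' : k ∈ V
  · simp [mix, h']
  · have : k ∉ U := fun hk => h' (h hk)
    simp [mix, h', this]

/-- swapping the bits in `U` -/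
def swapEquiv (U : Finset K) : ((K → Bool) × (K → Bool)) ≃ ((K → Bool) × (K → Bool)) where
  toFun p := (mix U p.1 p.2, mix U p.2 p.1)
  invFun p := (mix U p.1 p.2, mix U p.2 p.1)
  left_inv p := by
    simp only [mix_swap]
  right_inv p := by
    simp only [mix_swap]

theorem av_av_eq (F : (K → Bool) → (K → Bool) → ℝ) : (av fun x => av fun y => F x y)
      = (∑ p : (K → Bool) × (K → Bool), F p.1 p.2) / (2 ^ Fintype.card K * 2 ^ Fintype.card K) := by
  unfold av
  rw [← Finset.sum_div, div_div, Fintype.sum_prod_type]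

/-- the swap of the bits in `U` preserves the product measure -/
theorem av_av_swap (U : Finset K) (F : (K → Bool) → (K → Bool) → ℝ) :
    (av fun x => av fun y => F (mix U x y) (mix U y x)) = av fun x => av fun y => F x y := by
  rw [av_av_eq, av_av_eq F]
  congr 1
  exact Equiv.sum_comp (swapEquiv U) (fun p => F p.1 p.2)

/-- the average over the mixed point -/
theorem av_av_mix (U : Finset K) (f : (K → Bool) → ℝ) :
    (av fun x => av fun y => f (mix U x y)) = av f := by
  have h := av_av_swap U (fun x _ => f x)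
  rw [h]
  simp only [av_const]

theorem EU_empty (f : (K → Bool) → ℝ) : EU ∅ f = f := by
  funext x
  unfold EU
  simp only [mix_empty, av_const]

theorem EU_add (U : Finset K) (f g : (K → Bool) → ℝ) (x : K → Bool) :
    EU U (fun x => f x + g x) x = EU U f x + EU U g x := av_add _ _

theorem EU_sub (U : Finset K) (f g : (K → Bool) → ℝ) (x : K → Bool) :
    EU U (fun x => f x - g x) x = EU U f x - EU U g x := av_sub _ _

theorem EU_neg (U : Finset K) (f : (K → Bool) → ℝ) (x : K → Bool) :
    EU U (fun x => - f x) x = - EU U f x := av_neg _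

theorem EU_mul_left (U : Finset K) (c : ℝ) (f : (K → Bool) → ℝ) (x : K → Bool) :
    EU U (fun x => c * f x) x = c * EU U f x := av_mul_left _ _

theorem EU_const (U : Finset K) (c : ℝ) (x : K → Bool) : EU U (fun _ => c) x = c := av_const _

theorem EU_sum {β : Type} (U : Finset K) (s : Finset β) (F : β → (K → Bool) → ℝ) (x : K → Bool) :
    EU U (fun x => ∑ b ∈ s, F b x) x = ∑ b ∈ s, EU U (F b) x := av_sum _ _

theorem EU_mono (U : Finset K) {f g : (K → Bool) → ℝ} (h : ∀ x, f x ≤ g x) (x : K → Bool) :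
    EU U f x ≤ EU U g x := av_mono fun _ => h _

theorem EU_nonneg (U : Finset K) {f : (K → Bool) → ℝ} (h : ∀ x, 0 ≤ f x) (x : K → Bool) :
    0 ≤ EU U f x := av_nonneg fun _ => h _

theorem av_EU (U : Finset K) (f : (K → Bool) → ℝ) : av (EU U f) = av f := av_av_mix U f

theorem av_mix_right (V : Finset K) (f : (K → Bool) → ℝ) :
    (av fun y => av fun z => f (mix V y z)) = av f := av_av_mix V f

theorem EU_EU (U V : Finset K) (f : (K → Bool) → ℝ) : EU U (EU V f) = EU (U ∪ V) f := by
  funext x
  unfold EU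
  simp only [mix_mix]
  exact av_av_mix V (fun y => f (mix (U ∪ V) x y))

theorem EU_inv {U V : Finset K} (h : U ⊆ V) (f : (K → Bool) → ℝ) (x y : K → Bool) :
    EU V f (mix U x y) = EU V f x := by
  unfold EU
  simp only [mix_mix_of_subset h]

theorem EU_of_inv {U : Finset K} {f : (K → Bool) → ℝ} (h : ∀ x y, f (mix U x y) = f x) :
    EU U f = f := by
  funext x
  unfold EU
  simp only [h, av_const]

theorem EU_mul_inv {U : Finset K} {h : (K → Bool) → ℝ} (hh : ∀ x y, h (mix U x y) = h x)
    (f : (K → Bool) → ℝ) (x : K → Bool) : EU U (fun x => h x * f x) x = h x * EU U f x := by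
  unfold EU
  simp only [hh]
  exact av_mul_left _ _

theorem av_mul_inv {U : Finset K} {h : (K → Bool) → ℝ} (hh : ∀ x y, h (mix U x y) = h x)
    (f : (K → Bool) → ℝ) : (av fun x => h x * f x) = av fun x => h x * EU U f x := by
  rw [← av_EU U (fun x => h x * f x)]
  congr 1
  funext x
  exact EU_mul_inv hh f x

theorem av_mul_EU (U : Finset K) (f g : (K → Bool) → ℝ) :
    (av fun x => f x * EU U g x) = av fun x => EU U f x * g x := by
  have h1 : (av fun x => EU U g x * f x) = av fun x => EU U g x * EU U f x :=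
    av_mul_inv (fun x y => EU_inv (Finset.Subset.refl U) g x y) f
  have h2 : (av fun x => EU U f x * g x) = av fun x => EU U f x * EU U g x :=
    av_mul_inv (fun x y => EU_inv (Finset.Subset.refl U) f x y) g
  rw [h2]
  have h3 : (fun x => f x * EU U g x) = fun x => EU U g x * f x := by
    funext x; ring
  have h4 : (fun x => EU U f x * EU U g x) = fun x => EU U g x * EU U f x := by
    funext x; ring
  rw [h3, h4, h1]

theorem EU_sq_le (U : Finset K) (f : (K → Bool) → ℝ) (x : K → Bool) :
    EU U f x ^ 2 ≤ EU U (fun x => f x ^ 2) x := by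
  unfold EU
  have h := av_mul_sq_le (fun y => f (mix U x y)) (fun _ => 1)
  simpa [av_const] using h

theorem av_EU_sq_le (U : Finset K) (f : (K → Bool) → ℝ) :
    (av fun x => EU U f x ^ 2) ≤ av fun x => f x ^ 2 := by
  rw [← av_EU U (fun x => f x ^ 2)]
  exact av_mono fun x => EU_sq_le U f x

theorem av_EU_sq_anti {U V : Finset K} (h : U ⊆ V) (f : (K → Bool) → ℝ) :
    (av fun x => EU V f x ^ 2) ≤ av fun x => EU U f x ^ 2 := by
  have h1 : EU V f = EU V (EU U f) := by
    rw [EU_EU, Finset.union_eq_left.2 h]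
  rw [h1]
  exact av_EU_sq_le V (EU U f)

theorem ind_of_mem {X : Set (K → Bool)} {x : K → Bool} (h : x ∈ X) : ind X x = 1 :=
  Set.indicator_of_mem h _

theorem ind_of_notMem {X : Set (K → Bool)} {x : K → Bool} (h : x ∉ X) : ind X x = 0 :=
  Set.indicator_of_notMem h _

theorem ind_nonneg (X : Set (K → Bool)) (x : K → Bool) : 0 ≤ ind X x := by
  by_cases h : x ∈ X
  · rw [ind_of_mem h]; norm_num
  · rw [ind_of_notMem h]

theorem ind_le_one (X : Set (K → Bool)) (x : K → Bool) : ind X x ≤ 1 := by
  by_cases h : x ∈ X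
  · rw [ind_of_mem h]
  · rw [ind_of_notMem h]; norm_num

theorem ind_mono {X Y : Set (K → Bool)} (h : X ⊆ Y) (x : K → Bool) : ind X x ≤ ind Y x := by
  by_cases hx : x ∈ X
  · rw [ind_of_mem hx, ind_of_mem (h hx)]
  · rw [ind_of_notMem hx]; exact ind_nonneg _ _

theorem ind_compl (X : Set (K → Bool)) (x : K → Bool) : ind Xᶜ x = 1 - ind X x := by
  by_cases hx : x ∈ X
  · rw [ind_of_mem hx, ind_of_notMem (show x ∉ Xᶜ from fun h => h hx)]; norm_num
  · rw [ind_of_notMem hx, ind_of_mem (show x ∈ Xᶜ from hx)]; norm_num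

theorem ind_sq (X : Set (K → Bool)) (x : K → Bool) : ind X x ^ 2 = ind X x := by
  by_cases hx : x ∈ X
  · rw [ind_of_mem hx]; norm_num
  · rw [ind_of_notMem hx]; norm_num

theorem EU_ind_nonneg (U : Finset K) (X : Set (K → Bool)) (x : K → Bool) : 0 ≤ EU U (ind X) x :=
  EU_nonneg U (ind_nonneg X) x

theorem EU_ind_le_one (U : Finset K) (X : Set (K → Bool)) (x : K → Bool) : EU U (ind X) x ≤ 1 := by
  have h := EU_mono U (ind_le_one X) x
  rwa [EU_const] at h

variable {ι : Type} [DecidableEq ι]

theorem US_union (U : ι → Finset K) (S T : Finset ι) : US U (S ∪ T) = US U S ∪ US U T :=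
  Finset.union_biUnion

theorem US_empty (U : ι → Finset K) : US U ∅ = ∅ := Finset.biUnion_empty

theorem US_singleton (U : ι → Finset K) (i : ι) : US U {i} = U i := Finset.singleton_biUnion

theorem US_mono (U : ι → Finset K) {S T : Finset ι} (h : S ⊆ T) : US U S ⊆ US U T :=
  Finset.biUnion_subset_biUnion_of_subset_left U h

theorem US_congr {U V : ι → Finset K} {S : Finset ι} (h : ∀ i ∈ S, U i = V i) :
    US U S = US V S := Finset.biUnion_congr rfl h

end base

end Pool.Agent.Helper70.LA
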