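import Mathlib

/-!
# Averages over bit strings (discrepancy in all dimensions)

Definitions for the proof of the `L^1` discrepancy conjecture.
-/

set_option autoImplicit false

namespace Pool.Agent.Helper70.LA

open Finset

/-- average over all bit strings -/
noncomputable def av {K : Type} [Fintype K] [DecidableEq K] (f : (K → Bool) → ℝ) : ℝ :=
  (∑ x, f x) / 2 ^ Fintype.card K

/-- the bits in `U` are taken from `y`, the others from `x` -/
def mix {K : Type} [DecidableEq K] (U : Finset K) (x y : K → Bool) : K → Bool :=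
  fun k => if k ∈ U then y k else x k

/-- average over the bits in `U` -/
noncomputable def EU {K : Type} [Fintype K] [DecidableEq K] (U : Finset K)
    (f : (K → Bool) → ℝ) (x : K → Bool) : ℝ :=
  av fun y => f (mix U x y)

/-- indicator function of a set of bit strings -/
noncomputable def ind {K : Type} (X : Set (K → Bool)) (x : K → Bool) : ℝ :=
  X.indicator (fun _ => 1) x

/-- union of the bit sets of the coordinates in `S` -/
def US {ι K : Type} [DecidableEq K] (U : ι → Finset K) (S : Finset ι) : Finset K :=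
  S.biUnion U

/-- all sections through points of `Q` are almost contained in `Q` -/
def SelfCons {ι K : Type} [Fintype K] [DecidableEq K] (U : ι → Finset K) (I : Finset ι)
    (Q : Set (K → Bool)) (η : ℝ) : Prop :=
  ∀ x ∈ Q, ∀ S ⊆ I, S.Nonempty → EU (US U S) (ind Qᶜ) x ≤ η

/-- all partial mixtures of `x` and `y` lie in `Q` -/
def Good {ι K : Type} [DecidableEq K] (U : ι → Finset K) (I : Finset ι)
    (Q : Set (K → Bool)) (x y : K → Bool) : Prop :=
  ∀ T ⊆ I, mix (US U T) x y ∈ Q

/-- probability that `y` is good for `x` -/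
noncomputable def mu {ι K : Type} [Fintype K] [DecidableEq K] (U : ι → Finset K) (I : Finset ι)
    (Q : Set (K → Bool)) (x : K → Bool) : ℝ :=
  av (ind {y | Good U I Q x y})

/-- the resampled function -/
noncomputable def resample {ι K : Type} [DecidableEq ι] [Fintype K] [DecidableEq K]
    (U : ι → Finset K) (I : Finset ι) (Q : Set (K → Bool)) (v : (K → Bool) → ℝ)
    (z : K → Bool) : ℝ :=
  ∑ S ∈ I.powerset.erase ∅, (-1) ^ (S.card + 1) *
    av fun w => ind {y | Good U I Q z y} w * (v (mix (US U S) z w) / mu U I Q (mix (US U S) z w))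

/-- the bits `j ≥ r` of the coordinate `i` -/
def low {ι : Type} [Fintype ι] [DecidableEq ι] {L : ℕ} (i : ι) (r : ℕ) : Finset (ι × Fin L) :=
  univ.filter fun k => k.1 = i ∧ r ≤ (k.2 : ℕ)

/-- the sign of the bit `r` of the coordinate `i` -/
def sg {ι : Type} {L : ℕ} (i : ι) (r : ℕ) (x : ι × Fin L → Bool) : ℝ :=
  if h : r < L then (if x (i, ⟨r, h⟩) then 1 else -1) else 1

/-- the centred coordinate `i` at level `r` -/
noncomputable def wt {ι : Type} {L : ℕ} (i : ι) (r : ℕ) (x : ι × Fin L → Bool) : ℝ :=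
  ∑ j ∈ Ico r L, sg i j x / 2 ^ (j + 2)

/-- level vectors with sum `n` -/
def shapes (ι : Type) [Fintype ι] [DecidableEq ι] (n : ℕ) : Finset (ι → ℕ) :=
  (Fintype.piFinset fun _ : ι => range (n + 1)).filter fun r => ∑ i, r i = n

/-- level vectors supported on `I` with entries at most `n` -/
def box {ι : Type} [Fintype ι] [DecidableEq ι] (I : Finset ι) (n : ℕ) : Finset (ι → ℕ) :=
  Fintype.piFinset fun i => if i ∈ I then range (n + 1) else {0}

/-- the part of the certificate belonging to one shape -/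
noncomputable def phi {ι : Type} [Fintype ι] [DecidableEq ι] {L : ℕ}
    (g : (ι × Fin L → Bool) → ℝ) (v : Finset ι → (ι → ℕ) → (ι × Fin L → Bool) → ℝ)
    (r : ι → ℕ) (x : ι × Fin L → Bool) : ℝ :=
  g x * ∑ I : Finset ι, (∏ i ∈ Iᶜ, sg i (r i) x) * v I r x

/-- the constants in the norm bounds -/
def cA : ℕ → ℝ
  | 0 => 1
  | q + 1 => 4 ^ (q + 2) * (q + 1) * cA q

/-- `D` behaves like a discrepancy function at resolution `n` with density `κ` -/
def DiscLike {ι : Type} [Fintype ι] [DecidableEq ι] {L : ℕ} (n : ℕ) (κ : ℝ)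
    (D : (ι × Fin L → Bool) → ℝ) : Prop :=
  ∀ r ∈ shapes ι n, ∃ g : (ι × Fin L → Bool) → ℝ, (∀ x, g x = 0 ∨ g x = 1) ∧
    (∀ i x y, g (mix (low i (r i)) x y) = g x) ∧ 3 / 4 ≤ av g ∧
    ∀ φ : (ι × Fin L → Bool) → ℝ, (∀ i, EU (low i (r i)) φ = 0) →
      av (fun x => g x * φ x * D x) = - κ * av (fun x => g x * φ x * ∏ i, wt i (r i) x)

/-- the number with binary digits `b`, most significant digit first -/
def val {L : ℕ} (b : Fin L → Bool) : ℕ := ∑ j : Fin L, if b j then 2 ^ (L - 1 - (j : ℕ)) else 0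

/-- the coordinate `i` as a number -/
def num {ι : Type} {L : ℕ} (i : ι) (x : ι × Fin L → Bool) : ℕ := val fun j => x (i, j)

/-- the threshold `m` splits the cell of level `r` of `x` in the direction `i` -/
def Splits {ι : Type} [Fintype ι] [DecidableEq ι] {L : ℕ} (i : ι) (r m : ℕ)
    (x : ι × Fin L → Bool) : Prop :=
  ∃ y z, num i (mix (low i r) x y) < m ∧ m ≤ num i (mix (low i r) x z)

/-- the discrepancy of a finite set with thresholds `q` on the grid, shifted by `u` -/
noncomputable def Dg {ι α : Type} [Fintype ι] {L : ℕ} (P : Finset α) (q : α → ι → ℕ) (u : ι → ℝ)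
    (κ : ℝ) (x : ι × Fin L → Bool) : ℝ :=
  (∑ p ∈ P, if ∀ i, q p i ≤ num i x then (1 : ℝ) else 0)
    - κ * ∏ i, (((num i x : ℝ) + u i) / 2 ^ L)

end Pool.Agent.Helper70.LA
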