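import Pool.Agent.Helper56.LA.Grid
import Pool.Agent.Helper45.LA.PTS1

/-!
# Discrepancy in all dimensions: the discrepancy function on point-free cells

Module LA-PTS2 of MP_c61924_co (author helper52).
-/

set_option autoImplicit false

namespace Pool.Agent.Helper70.LA

open Finset

section pts2

variable {ι : Type} [Fintype ι] [DecidableEq ι] {L : ℕ} {α : Type}

theorem pts2_num_mix_ne {i j : ι} (h : j ≠ i) (s : ℕ) (x y : ι × Fin L → Bool) :
    num i (mix (low j s) x y) = num i x := by
  unfold num
  congr 1
  funext l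
  have : (i, l) ∉ low (L := L) j s := by
    simp only [low, mem_filter, mem_univ, true_and, not_and]
    intro h'
    exact absurd h'.symm h
  simp [mix, this]

theorem pts2_mix_comm_low {i j : ι} (h : j ≠ i) (r s : ℕ) (x y z : ι × Fin L → Bool) :
    mix (low i r) (mix (low j s) x y) z = mix (low j s) (mix (low i r) x z) y := by
  funext k
  have hd : ¬ (k ∈ low (L := L) i r ∧ k ∈ low (L := L) j s) := by
    simp only [low, mem_filter, mem_univ, true_and, not_and]
    rintro ⟨h1, -⟩ h2
    exact absurd (h2.symm.trans h1) h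
  by_cases h1 : k ∈ low (L := L) i r
  · have h2 : k ∉ low (L := L) j s := fun h2 => hd ⟨h1, h2⟩
    simp [mix, h1, h2]
  · by_cases h2 : k ∈ low (L := L) j s <;> simp [mix, h1, h2]

/-- splitting is invariant under changes of the low bits -/
theorem pts2_splits_mix (i : ι) (m : ℕ) (r : ι → ℕ) (j : ι) (x y : ι × Fin L → Bool) :
    Splits i (r i) m (mix (low j (r j)) x y) ↔ Splits i (r i) m x := by
  by_cases h : j = i
  · subst h
    unfold Splits
    simp only [mix_mix_of_subset (Finset.Subset.refl _)]
  · unfold Splits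
    simp only [pts2_mix_comm_low h, pts2_num_mix_ne h]

theorem pts2_le_num_mix (i : ι) (r m : ℕ) (x y : ι × Fin L → Bool)
    (h : ¬ Splits i r m x) : m ≤ num i (mix (low i r) x y) ↔ m ≤ num i x := by
  constructor
  · intro h1
    by_contra h2
    apply h
    refine ⟨x, y, ?_, h1⟩
    rw [mix_self]
    omega
  · intro h1
    by_contra h2
    apply h
    refine ⟨y, x, ?_, ?_⟩
    · omega
    · rw [mix_self]
      exact h1

/-- the thresholds vanish against functions without marginals -/
theorem pts2_av_threshold (r : ι → ℕ) (q : ι → ℕ) (g φ : (ι × Fin L → Bool) → ℝ)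
    (hginv : ∀ i x y, g (mix (low i (r i)) x y) = g x)
    (hg : ∀ x, g x ≠ 0 → ∃ i, ¬ Splits i (r i) (q i) x)
    (hφ : ∀ i, EU (low i (r i)) φ = 0) :
    av (fun x => g x * φ x * (if ∀ i, q i ≤ num i x then (1 : ℝ) else 0)) = 0 := by
  classical
  have key : ∀ x, g x * φ x * (if ∀ i, q i ≤ num i x then (1 : ℝ) else 0)
      = ∑ Z : Finset ι, (g x * (if (univ.filter fun i => ¬ Splits i (r i) (q i) x) = Z then 1 else 0)
        * (if ∀ i, q i ≤ num i x then (1 : ℝ) else 0)) * φ x := by
    intro x
    rw [← Finset.sum_mul, ← Finset.sum_mul, ← Finset.mul_sum, Finset.sum_ite_eq,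
      if_pos (Finset.mem_univ _)]
    ring
  simp only [key]
  rw [av_sum]
  apply Finset.sum_eq_zero
  intro Z _
  by_cases hZ : Z.Nonempty
  · obtain ⟨i, hi⟩ := hZ
    rw [av_mul_inv (U := low i (r i))]
    · rw [hφ i]
      simp [av]
    · intro x y
      rw [hginv i x y]
      have e1 : (univ.filter fun j => ¬ Splits j (r j) (q j) (mix (low i (r i)) x y))
          = (univ.filter fun j => ¬ Splits j (r j) (q j) x) := by
        apply Finset.filter_congr
        intro j _
        rw [pts2_splits_mix]
      rw [e1]
      by_cases h : (univ.filter fun j => ¬ Splits j (r j) (q j) x) = Z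
      · have hns : ¬ Splits i (r i) (q i) x := by
          rw [← h] at hi
          exact (mem_filter.1 hi).2
        have e2 : (∀ j, q j ≤ num j (mix (low i (r i)) x y)) ↔ ∀ j, q j ≤ num j x := by
          apply forall_congr'
          intro j
          by_cases hj : i = j
          · subst hj
            exact pts2_le_num_mix i (r i) (q i) x y hns
          · rw [pts2_num_mix_ne hj]
        simp only [e2]
      · simp [h]
  · rw [Finset.not_nonempty_iff_eq_empty] at hZ
    subst hZ
    have : ∀ x, (g x * (if (univ.filter fun i => ¬ Splits i (r i) (q i) x) = ∅ then 1 else 0)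
        * (if ∀ i, q i ≤ num i x then (1 : ℝ) else 0)) * φ x = 0 := by
      intro x
      by_cases h : (univ.filter fun i => ¬ Splits i (r i) (q i) x) = ∅
      · have : g x = 0 := by
          by_contra h0
          obtain ⟨i, hi⟩ := hg x h0
          have : i ∈ (univ.filter fun i => ¬ Splits i (r i) (q i) x) := mem_filter.2 ⟨mem_univ _, hi⟩
          rw [h] at this
          exact absurd this (Finset.notMem_empty i)
        rw [this]; ring
      · rw [if_neg h]; ring
    simp only [this]
    exact av_const 0

theorem pts2_wt_split (i : ι) (r : ℕ) (hr : r ≤ L) (x : ι × Fin L → Bool) :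
    wt i 0 x = (∑ j ∈ Ico 0 r, sg i j x / 2 ^ (j + 2)) + wt i r x := by
  unfold wt
  rw [Finset.sum_Ico_consecutive _ (Nat.zero_le r) hr]

/-- replace the volume by the product of the weights -/
theorem pts2_av_volume (n : ℕ) (hn : n < L) (r : ι → ℕ) (hr : r ∈ shapes ι n) (u : ι → ℝ)
    (g φ : (ι × Fin L → Bool) → ℝ)
    (hginv : ∀ i x y, g (mix (low i (r i)) x y) = g x)
    (hφ : ∀ i, EU (low i (r i)) φ = 0) :
    av (fun x => g x * φ x * ∏ i, (((num i x : ℝ) + u i) / 2 ^ L))
      = av (fun x => g x * φ x * ∏ i, wt i (r i) x) := by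
  classical
  have hrn : ∀ i, r i ≤ L := by
    intro i
    have h1 := (mem_filter.1 hr).1
    have h2 := Fintype.mem_piFinset.1 h1 i
    have h3 := mem_range.1 h2
    omega
  have key : ∀ S : Finset ι,
      av (fun x => g x * φ x * ∏ j, (if j ∈ S then wt j (r j) x else (((num j x : ℝ) + u j) / 2 ^ L)))
      = av (fun x => g x * φ x * ∏ i, (((num i x : ℝ) + u i) / 2 ^ L)) := by
    intro S
    induction S using Finset.induction_on with
    | empty => simp
    | insert i S hi ih =>
      rw [← ih]
      -- the common remaining factor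
      set R : (ι × Fin L → Bool) → ℝ := fun x =>
        ∏ j ∈ univ.erase i, (if j ∈ S then wt j (r j) x else (((num j x : ℝ) + u j) / 2 ^ L)) with hR
      have e1 : ∀ x, (∏ j, (if j ∈ insert i S then wt j (r j) x
          else (((num j x : ℝ) + u j) / 2 ^ L))) = wt i (r i) x * R x := by
        intro x
        rw [← Finset.mul_prod_erase univ _ (mem_univ i)]
        simp only [mem_insert_self, if_true]
        congr 1
        apply Finset.prod_congr rfl
        intro j hj
        have : j ≠ i := Finset.ne_of_mem_erase hj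
        simp [this]
      have e2 : ∀ x, (∏ j, (if j ∈ S then wt j (r j) x
          else (((num j x : ℝ) + u j) / 2 ^ L))) = (((num i x : ℝ) + u i) / 2 ^ L) * R x := by
        intro x
        rw [← Finset.mul_prod_erase univ _ (mem_univ i)]
        simp only [hi, if_false]
        rfl
      have e3 : ∀ x, g x * φ x * ((((num i x : ℝ) + u i) / 2 ^ L) * R x)
          = g x * φ x * (wt i (r i) x * R x)
            + (g x * ((u i + (2 ^ L - 1) / 2) / 2 ^ L + ∑ j ∈ Ico 0 (r i), sg i j x / 2 ^ (j + 2))
                * R x) * φ x := by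
        intro x
        rw [num_eq, pts2_wt_split i (r i) (hrn i)]
        ring
      simp only [e1, e2, e3]
      rw [av_add, left_eq_add]
      rw [av_mul_inv (U := low i (r i))]
      · rw [hφ i]
        simp [av]
      · intro x y
        rw [hginv i x y]
        have e4 : ∀ j ∈ Ico 0 (r i), sg i j (mix (low i (r i)) x y) / 2 ^ (j + 2)
            = sg i j x / 2 ^ (j + 2) := by
          intro j hj
          rw [sg_mix j (r i) (Or.inr (mem_Ico.1 hj).2)]
        rw [Finset.sum_congr rfl e4]
        have e5 : R (mix (low i (r i)) x y) = R x := by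
          simp only [hR]
          apply Finset.prod_congr rfl
          intro j hj
          have hji : j ≠ i := Finset.ne_of_mem_erase hj
          rw [wt_mix (r j) (r i) hji.symm, pts2_num_mix_ne hji.symm]
        rw [e5]
  have h := key univ
  simp only [mem_univ, if_true] at h
  exact h.symm

theorem discLike_Dg (n : ℕ) (hn : n < L) (P : Finset α) (q : α → ι → ℕ) (u : ι → ℝ) (κ : ℝ)
    (hP : 4 * P.card ≤ 2 ^ n) : DiscLike n κ (Dg (L := L) P q u κ) := by
  classical
  intro r hr
  let g : (ι × Fin L → Bool) → ℝ := fun x =>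
    if ∃ p ∈ P, ∀ i, Splits i (r i) (q p i) x then 0 else 1
  have hginv : ∀ i x y, g (mix (low i (r i)) x y) = g x := by
    intro i x y
    simp only [g, pts2_splits_mix]
  refine ⟨g, ?_, hginv, ?_, ?_⟩
  · intro x
    simp only [g]
    by_cases h : ∃ p ∈ P, ∀ i, Splits i (r i) (q p i) x
    · left; simp [h]
    · right; simp [h]
  · have h1 : ∀ x, 1 - g x ≤ ∑ p ∈ P,
        ind {x : ι × Fin L → Bool | ∀ i, Splits i (r i) (q p i) x} x := by
      intro x
      by_cases h : ∃ p ∈ P, ∀ i, Splits i (r i) (q p i) x
      · have hgx : g x = 0 := by simp only [g]; rw [if_pos h]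
        rw [hgx]
        obtain ⟨p, hp, hs⟩ := h
        have h2 : ind {x : ι × Fin L → Bool | ∀ i, Splits i (r i) (q p i) x} x = 1 :=
          ind_of_mem hs
        have h3 := Finset.single_le_sum
          (f := fun p => ind {x : ι × Fin L → Bool | ∀ i, Splits i (r i) (q p i) x} x)
          (fun p _ => ind_nonneg _ x) hp
        linarith
      · have hgx : g x = 1 := by simp only [g]; rw [if_neg h]
        rw [hgx]
        have := Finset.sum_nonneg (s := P)
          (f := fun p => ind {x : ι × Fin L → Bool | ∀ i, Splits i (r i) (q p i) x} x)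
          (fun p _ => ind_nonneg _ x)
        linarith
    have h2 := av_mono h1
    rw [av_sum, av_sub, av_const] at h2
    have h3 : ∑ p ∈ P, av (ind {x : ι × Fin L → Bool | ∀ i, Splits i (r i) (q p i) x})
        ≤ ∑ p ∈ P, (1 / 2 ^ n : ℝ) := by
      apply Finset.sum_le_sum
      intro p _
      exact av_splits_le n hn r hr (q p)
    rw [Finset.sum_const, nsmul_eq_mul] at h3
    have h4 : (P.card : ℝ) * (1 / 2 ^ n) ≤ 1 / 4 := by
      have h5 : (4 : ℝ) * P.card ≤ 2 ^ n := by exact_mod_cast hP
      have h6 : (0 : ℝ) < 2 ^ n := by positivity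
      rw [mul_one_div, div_le_iff₀ h6]
      linarith
    have h5 : av g = av (fun x => g x) := rfl
    rw [h5]
    linarith
  · intro φ hφ
    have hgex : ∀ p ∈ P, ∀ x, g x ≠ 0 → ∃ i, ¬ Splits i (r i) (q p i) x := by
      intro p hp x hx
      by_contra h
      push Not at h
      apply hx
      simp only [g]
      rw [if_pos ⟨p, hp, h⟩]
    have e1 : ∀ x, g x * φ x * Dg (L := L) P q u κ x
        = (∑ p ∈ P, g x * φ x * (if ∀ i, q p i ≤ num i x then (1 : ℝ) else 0))
          - κ * (g x * φ x * ∏ i, (((num i x : ℝ) + u i) / 2 ^ L)) := by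
      intro x
      unfold Dg
      rw [mul_sub, Finset.mul_sum]
      ring
    simp only [e1]
    rw [av_sub, av_sum, av_mul_left, pts2_av_volume n hn r hr u g φ hginv hφ]
    rw [Finset.sum_eq_zero]
    · ring
    · intro p hp
      exact pts2_av_threshold r (q p) g φ hginv (hgex p hp) hφ

end pts2

end Pool.Agent.Helper70.LA
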