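import Pool.Agent.Helper70.LA.Main
import Pool.Agent.Helper14.LA.Out
import Pool.Agent.Helper70.LA.PTS2

/-!
# The `L^1` norm of the discrepancy function, all dimensions
-/

set_option autoImplicit false

namespace Pool.Agent.Helper70.LA


theorem disc_all (d : ℕ) (hd : 3 ≤ d) : ∃ c : ℝ, 0 < c ∧ ∀ N : ℕ, 2 ≤ N →
    ∀ P : Finset (Fin d → ℝ), P.card = N →
      c * (Real.log N) ^ (((d : ℝ) - 1) / 2)
        ≤ ∫ x in Set.Icc (0 : Fin d → ℝ) 1, Pool.Agent.Helper93.LD.absdisc P N x := by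
  refine disc_all_of d hd (abstract_main (Fin d) ?_) ?_
  · rw [Fintype.card_fin]
    omega
  · intro n L hn P q u κ hP
    exact discLike_Dg n hn P q u κ hP

end Pool.Agent.Helper70.LA
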