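import Pool.Agent.Helper56.LA.Grid
import Pool.Agent.Helper56.LA.Abd
import Pool.Agent.Helper42.LA.Cert
import Pool.Agent.Helper53.LA.FAM
import Pool.Agent.Helper88.LA.Sig
import Pool.Agent.Helper83.LA.CNT
import Pool.Agent.Helper34.LA.Sec
import Pool.Agent.Helper70.LA.Base

/-!
# Assembly: the lower bound for every function that behaves like a discrepancy function
-/

set_option autoImplicit false

namespace Pool.Agent.Helper70.LA

open Finset

/-- a common bound for the constants -/
noncomputable def cK (k : ℕ) : ℝ := ∑ q ∈ range (k + 1), cA q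

theorem abstract_main (ι : Type) [Fintype ι] [DecidableEq ι] (hk : 2 ≤ Fintype.card ι) :
    ∃ c : ℝ, 0 < c ∧ ∃ n0 : ℕ, ∀ n, n0 ≤ n → ∀ L, n < L → ∀ κ : ℝ, 0 < κ →
      ∀ D : (ι × Fin L → Bool) → ℝ, DiscLike n κ D →
        c * (κ / 2 ^ n) * √(((n : ℝ) + 1) ^ (Fintype.card ι - 1)) ≤ av fun x => |D x| := by
  classical
  obtain ⟨k, hkdef⟩ : ∃ k, k = Fintype.card ι := ⟨_, rfl⟩
  rw [← hkdef] at hk ⊢
  -- the constants
  set ε : ℝ := 1 / (6 * 8 ^ k) with hε
  have hε0 : 0 < ε := by positivity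
  set θ : ℝ := ε ^ k / (2 * k) with hθ
  have hk0 : (0 : ℝ) < k := by
    have : 0 < k := by omega
    exact_mod_cast this
  have hθ0 : 0 < θ := by positivity
  have hε1 : ε ≤ 1 := by
    rw [hε, div_le_one (by positivity)]
    have : (1 : ℝ) ≤ 8 ^ k := one_le_pow₀ (by norm_num)
    linarith
  have hθ1 : θ ≤ 1 := by
    rw [hθ, div_le_one (by positivity)]
    have h1 : ε ^ k ≤ 1 := pow_le_one₀ hε0.le hε1
    have h2 : (2 : ℝ) ≤ k := by exact_mod_cast hk
    linarith
  have hkθ : (k : ℝ) * θ = ε ^ k / 2 := by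
    rw [hθ]; field_simp
  set A : ℝ := 1 + cK k with hA
  have hcApos : ∀ q, 0 < cA q := fun q => cA_pos q
  have hAle : ∀ q ≤ k, cA q ≤ A := by
    intro q hq
    have h1 : cA q ≤ cK k := by
      unfold cK
      exact Finset.single_le_sum (fun i _ => (hcApos i).le) (Finset.mem_range.2 (by omega))
    linarith
  have hA1 : 1 ≤ A := by
    have : 0 ≤ cK k := Finset.sum_nonneg fun i _ => (hcApos i).le
    linarith
  have hA0 : 0 < A := by linarith
  set δ : ℝ := θ ^ (k * k) * (1 / 2 ^ k / 4) with hδ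
  have hδ0 : 0 < δ := by positivity
  -- the final constant
  set c1 : ℝ := (1 / 8) * (1 / 4 ^ k) * (1 / 2 ^ k) / √A with hc1
  have hc10 : 0 < c1 := by positivity
  set K0 : ℝ := √((k : ℝ) ^ (k - 1)) with hK0
  have hK00 : 0 < K0 := by positivity
  refine ⟨δ * (c1 / K0), by positivity, ⌈A * (k : ℝ) ^ (k - 1) * (16 * 16 ^ k)⌉₊, ?_⟩
  intro n hn0 L hL κ hκ D hD
  choose! g hg01 hginv hgav hgD using hD
  set M : ℝ := ((shapes ι n).card : ℝ) with hM
  -- bounds for M
  have hMlow : ((n : ℝ) + 1) ^ (k - 1) ≤ (k : ℝ) ^ (k - 1) * M := by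
    have h := shapes_card_lower (ι := ι) n (by omega)
    rw [← hkdef] at h
    rw [hM]
    exact_mod_cast h
  have hn1 : (0 : ℝ) < (n : ℝ) + 1 := by positivity
  have hM0 : 0 < M := by
    have h1 : (0 : ℝ) < ((n : ℝ) + 1) ^ (k - 1) := by positivity
    have h2 : 0 < (k : ℝ) ^ (k - 1) * M := lt_of_lt_of_le h1 hMlow
    exact (pos_iff_pos_of_mul_pos h2).1 (by positivity)
  -- the threshold
  set s : ℝ := c1 * (κ / 2 ^ n) * √M with hs
  have hs0 : 0 < s := by positivity
  set B : Set (ι × Fin L → Bool) := {x | s < |D x|} with hB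
  -- the claim: B is large
  have hclaim : δ ≤ av (ind B) := by
    by_contra hcon
    rw [not_le] at hcon
    obtain ⟨X, hX1, hX2, hX3, hX4⟩ := exists_ladder (fun (i : ι) (r : ℕ) => low (L := L) i r)
      (fun i => low_antitone i) L (fun i r hr => low_eq_empty i r hr) θ hθ0 hθ1 B k hkdef
    have hX0 : av (ind (X 0)ᶜ) ≤ 1 / 2 ^ k / 4 := by
      have h1 : θ ^ (k * k) * av (ind (X 0)ᶜ) ≤ θ ^ (k * k) * (1 / 2 ^ k / 4) :=
        le_trans hX3 hcon.le
      exact le_of_mul_le_mul_left h1 (by positivity)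
    obtain ⟨v, hv0, hvdep, hvsupp, hvmarg, hvnorm⟩ := exists_family k hkdef X hX1 (k * θ)
      (by rw [hkθ]) hX4
    have hAI : ∀ I : Finset ι, ∑ r ∈ box I n, (av fun x => v I r x ^ 2) ≤ A := by
      intro I
      refine le_trans (A_bound n hL (X 0) v hv0 hvdep hvnorm I) (hAle _ ?_)
      rw [hkdef]
      exact Finset.card_le_univ I
    -- X is increasing
    have hXk : ∀ j ≤ k, X j ⊆ X k := by
      intro j hj
      obtain ⟨m, rfl⟩ : ∃ m, k = j + m := ⟨k - j, by omega⟩
      have : ∀ m', m' ≤ m → X j ⊆ X (j + m') := by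
        intro m' hm'
        induction m' with
        | zero => exact subset_rfl
        | succ m' ih =>
          exact (ih (by omega)).trans (hX1 (j + m') (by omega))
      exact this m le_rfl
    -- the certificate
    set Φ : (ι × Fin L → Bool) → ℝ := fun x => ∑ r ∈ shapes ι n, phi (g r) v r x with hΦ
    have hΦB : ∀ x ∈ B, Φ x = 0 := by
      intro x hx
      rw [hΦ]
      refine Finset.sum_eq_zero fun r _ => ?_
      unfold phi
      rw [mul_eq_zero]
      right
      refine Finset.sum_eq_zero fun I _ => ?_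
      rw [mul_eq_zero]
      right
      apply hvsupp
      intro hxI
      have h1 : I.card ≤ k := by rw [hkdef]; exact Finset.card_le_univ I
      have h2 := hXk _ h1 hxI
      rw [hX2] at h2
      exact h2 hx
    -- upper bound
    have hup : - (av fun x => Φ x * D x) ≤ s * (2 ^ k * (√A * √M)) := by
      have h1 : (av fun x => |Φ x|) ≤ 2 ^ k * (√A * √M) := by
        have h := cert_norm n hL (fun r => if r ∈ shapes ι n then g r else fun _ => 0)
          (fun r x => by
            by_cases hr : r ∈ shapes ι n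
            · simp only [hr, if_true]; exact hg01 r hr x
            · simp [hr])
          (fun r hr i x y => by
            simp only [hr, if_true]; exact hginv r hr i x y)
          v hvdep A hAI
        rw [← hkdef, ← hM] at h
        refine le_trans (le_of_eq ?_) h
        congr 1
        funext x
        rw [hΦ]
        congr 1
        refine Finset.sum_congr rfl fun r hr => ?_
        simp only [hr, if_true]
      have h2 : - (av fun x => Φ x * D x) ≤ av fun x => s * |Φ x| := by
        rw [← av_neg]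
        refine av_mono fun x => ?_
        by_cases hx : x ∈ B
        · rw [hΦB x hx]; simp
        · have h3 : |D x| ≤ s := not_lt.1 hx
          have h4 : -(Φ x * D x) ≤ |Φ x * D x| := neg_le_abs _
          rw [abs_mul] at h4
          calc -(Φ x * D x) ≤ |Φ x| * |D x| := h4
            _ ≤ |Φ x| * s := mul_le_mul_of_nonneg_left h3 (abs_nonneg _)
            _ = s * |Φ x| := mul_comm _ _
      rw [av_mul_left] at h2
      exact le_trans h2 (mul_le_mul_of_nonneg_left h1 hs0.le)
    -- the error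
    set E : ℝ := ∑ I ∈ univ.erase (∅ : Finset ι), ∑ r ∈ shapes ι n, av fun x => |v I r x| with hE
    have hEle : E ≤ 2 ^ k * (√A * √(((n : ℝ) + 1) ^ (k - 2) * M)) := by
      have h1 : ∀ I ∈ univ.erase (∅ : Finset ι), (∑ r ∈ shapes ι n, av fun x => |v I r x|)
          ≤ √A * √(((n : ℝ) + 1) ^ (k - 2) * M) := by
        intro I hI
        have hIne : I.Nonempty := Finset.nonempty_iff_ne_empty.2 (Finset.mem_erase.1 hI).1
        have h := sum_shapes_le n (by omega) I hIne (fun r => av fun x => |v I r x|)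
          (fun r => av_nonneg fun x => abs_nonneg _)
          (fun r r' hrr => by simp only [hvdep I r r' hrr]) A ?_
        · rw [← hkdef, ← hM] at h
          exact h
        · refine le_trans (Finset.sum_le_sum fun r _ => ?_) (hAI I)
          have h2 := av_abs_le_sqrt (v I r)
          have h3 : 0 ≤ av fun x => |v I r x| := av_nonneg fun x => abs_nonneg _
          calc (av fun x => |v I r x|) ^ 2 ≤ (√(av fun x => v I r x ^ 2)) ^ 2 :=
                pow_le_pow_left₀ h3 h2 2
            _ = av fun x => v I r x ^ 2 := Real.sq_sqrt (av_sq_nonneg _)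
      have h2 : E ≤ ∑ I ∈ univ.erase (∅ : Finset ι), √A * √(((n : ℝ) + 1) ^ (k - 2) * M) :=
        Finset.sum_le_sum h1
      rw [Finset.sum_const, nsmul_eq_mul] at h2
      refine le_trans h2 (mul_le_mul_of_nonneg_right ?_ (by positivity))
      have h3 : (univ.erase (∅ : Finset ι)).card ≤ (univ : Finset (Finset ι)).card :=
        Finset.card_le_card (Finset.erase_subset _ _)
      rw [Finset.card_univ, Fintype.card_finset, ← hkdef] at h3
      exact_mod_cast h3
    -- smallness of the error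
    have hErr : √A * √(((n : ℝ) + 1) ^ (k - 2) * M) ≤ (1 / 4) * (1 / 4 ^ k) * M := by
      have hnbig : A * (k : ℝ) ^ (k - 1) * (16 * 16 ^ k) ≤ (n : ℝ) + 1 := by
        have h1 := Nat.le_ceil (A * (k : ℝ) ^ (k - 1) * (16 * 16 ^ k))
        have h2 : ((⌈A * (k : ℝ) ^ (k - 1) * (16 * 16 ^ k)⌉₊ : ℕ) : ℝ) ≤ n := by exact_mod_cast hn0
        linarith
      rw [← Real.sqrt_mul hA0.le]
      rw [Real.sqrt_le_left (by positivity)]
      -- A (n+1)^(k-2) M ≤ M²/16/16^k
      have h3 : ((n : ℝ) + 1) ^ (k - 1) = ((n : ℝ) + 1) ^ (k - 2) * ((n : ℝ) + 1) := by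
        rw [← pow_succ]; congr 1; omega
      have h4 : A * ((n : ℝ) + 1) ^ (k - 2) * (16 * 16 ^ k) ≤ M := by
        have h5 : ((n : ℝ) + 1) ^ (k - 2) * (A * (k : ℝ) ^ (k - 1) * (16 * 16 ^ k))
            ≤ (k : ℝ) ^ (k - 1) * M := by
          calc _ ≤ ((n : ℝ) + 1) ^ (k - 2) * ((n : ℝ) + 1) :=
                mul_le_mul_of_nonneg_left hnbig (by positivity)
            _ = ((n : ℝ) + 1) ^ (k - 1) := h3.symm
            _ ≤ _ := hMlow
        have h6 : (k : ℝ) ^ (k - 1) * (A * ((n : ℝ) + 1) ^ (k - 2) * (16 * 16 ^ k))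
            ≤ (k : ℝ) ^ (k - 1) * M := by
          refine le_trans (le_of_eq ?_) h5
          ring
        exact le_of_mul_le_mul_left h6 (by positivity)
      have h7 : (1 / 4 * (1 / 4 ^ k) * M) ^ 2 = M * (M / (16 * 16 ^ k)) := by
        have : (16 : ℝ) ^ k = 4 ^ k * 4 ^ k := by
          rw [← mul_pow]; norm_num
        rw [this]
        field_simp
        ring
      rw [h7]
      have h8 : A * ((n : ℝ) + 1) ^ (k - 2) ≤ M / (16 * 16 ^ k) := by
        rw [le_div_iff₀ (by positivity)]
        exact h4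
      calc A * (((n : ℝ) + 1) ^ (k - 2) * M) = M * (A * ((n : ℝ) + 1) ^ (k - 2)) := by ring
        _ ≤ M * (M / (16 * 16 ^ k)) := mul_le_mul_of_nonneg_left h8 hM0.le
    -- lower bound
    have hlow : κ / 2 ^ n * ((1 / 4) * (1 / 4 ^ k) * M) ≤ - (av fun x => Φ x * D x) := by
      have h1 : ∀ r ∈ shapes ι n, - (av fun x => phi (g r) v r x * D x)
          = κ * av fun x => phi (g r) v r x * ∏ i, wt i (r i) x := by
        intro r hr
        have h := hgD r hr (fun x => ∑ I : Finset ι, (∏ i ∈ Iᶜ, sg i (r i) x) * v I r x)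
          (fun i => EU_phi r v (fun I i hi => hvmarg I r i hi) i)
        unfold phi
        rw [h]
        ring
      have h2 : - (av fun x => Φ x * D x)
          = ∑ r ∈ shapes ι n, κ * av fun x => phi (g r) v r x * ∏ i, wt i (r i) x := by
        rw [hΦ]
        simp only [Finset.sum_mul]
        rw [av_sum, ← Finset.sum_neg_distrib]
        exact Finset.sum_congr rfl h1
      rw [h2]
      have h3 : ∀ r ∈ shapes ι n, κ / 2 ^ n * (3 / 4 * (1 / 4 ^ k) - (1 / 2 ^ k) * (1 / 2 ^ k / 4)
            - (1 / 2 ^ k) * ∑ I ∈ univ.erase (∅ : Finset ι), av fun x => |v I r x|)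
          ≤ κ * av fun x => phi (g r) v r x * ∏ i, wt i (r i) x := by
        intro r hr
        have h := signal_shape n hL r hr (g r) (hg01 r hr) (hginv r hr) (hgav r hr) (X 0) v
          (hv0 r)
        rw [← hkdef] at h
        have h4 : (1 / 2 ^ k : ℝ) * av (ind (X 0)ᶜ) ≤ (1 / 2 ^ k) * (1 / 2 ^ k / 4) :=
          mul_le_mul_of_nonneg_left hX0 (by positivity)
        have h5 : (3 / 4 * (1 / 4 ^ k) - (1 / 2 ^ k) * (1 / 2 ^ k / 4)
            - (1 / 2 ^ k) * ∑ I ∈ univ.erase (∅ : Finset ι), av fun x => |v I r x|) / 2 ^ n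
            ≤ av fun x => phi (g r) v r x * ∏ i, wt i (r i) x := by
          refine le_trans ?_ h
          exact div_le_div_of_nonneg_right (by linarith) (by positivity)
        calc _ = κ * ((3 / 4 * (1 / 4 ^ k) - (1 / 2 ^ k) * (1 / 2 ^ k / 4)
            - (1 / 2 ^ k) * ∑ I ∈ univ.erase (∅ : Finset ι), av fun x => |v I r x|) / 2 ^ n) := by
              ring
          _ ≤ _ := mul_le_mul_of_nonneg_left h5 hκ.le
      refine le_trans ?_ (Finset.sum_le_sum h3)
      rw [← Finset.mul_sum]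
      refine mul_le_mul_of_nonneg_left ?_ (by positivity)
      rw [Finset.sum_sub_distrib, Finset.sum_const, nsmul_eq_mul, ← hM, ← Finset.mul_sum,
        Finset.sum_comm, ← hE]
      have h6 : (1 / 2 ^ k : ℝ) * E ≤ (1 / 4) * (1 / 4 ^ k) * M := by
        calc (1 / 2 ^ k : ℝ) * E ≤ (1 / 2 ^ k) * (2 ^ k * (√A * √(((n : ℝ) + 1) ^ (k - 2) * M))) :=
              mul_le_mul_of_nonneg_left hEle (by positivity)
          _ = √A * √(((n : ℝ) + 1) ^ (k - 2) * M) := by field_simp
          _ ≤ _ := hErr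
      have h7 : (1 / 2 ^ k : ℝ) * (1 / 2 ^ k / 4) = (1 / 4) * (1 / 4 ^ k) := by
        have : (4 : ℝ) ^ k = 2 ^ k * 2 ^ k := by rw [← mul_pow]; norm_num
        rw [this]; field_simp
      rw [h7]
      nlinarith
    -- contradiction
    have hfin := le_trans hlow hup
    have h1 : s * (2 ^ k * (√A * √M)) = κ / 2 ^ n * ((1 / 8) * (1 / 4 ^ k) * M) := by
      rw [hs, hc1]
      have h2 : √M * √M = M := Real.mul_self_sqrt hM0.le
      have h3 : √A ≠ 0 := by positivity
      have h4 : (1 / 8 * (1 / 4 ^ k) * (1 / 2 ^ k) / √A * (κ / 2 ^ n) * √M)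
          * (2 ^ k * (√A * √M)) = κ / 2 ^ n * (1 / 8 * (1 / 4 ^ k) * (√M * √M)) := by
        field_simp
      rw [h4, h2]
    rw [h1] at hfin
    have h5 : 0 < κ / 2 ^ n * ((1 / 8) * (1 / 4 ^ k) * M) := by positivity
    have h6 : κ / 2 ^ n * ((1 / 4) * (1 / 4 ^ k) * M)
        = 2 * (κ / 2 ^ n * ((1 / 8) * (1 / 4 ^ k) * M)) := by ring
    linarith
  -- conclusion
  have h1 : s * av (ind B) ≤ av fun x => |D x| := by
    rw [← av_mul_left]
    refine av_mono fun x => ?_
    by_cases hx : x ∈ B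
    · rw [ind_of_mem hx, mul_one]
      exact le_of_lt hx
    · rw [ind_of_notMem hx, mul_zero]
      exact abs_nonneg _
  have h2 : δ * (c1 / K0) * (κ / 2 ^ n) * √(((n : ℝ) + 1) ^ (k - 1)) ≤ s * δ := by
    have h3 : √(((n : ℝ) + 1) ^ (k - 1)) ≤ K0 * √M := by
      rw [hK0, ← Real.sqrt_mul (by positivity)]
      exact Real.sqrt_le_sqrt hMlow
    calc δ * (c1 / K0) * (κ / 2 ^ n) * √(((n : ℝ) + 1) ^ (k - 1))
        ≤ δ * (c1 / K0) * (κ / 2 ^ n) * (K0 * √M) :=
          mul_le_mul_of_nonneg_left h3 (by positivity)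
      _ = s * δ := by
          rw [hs]; field_simp
  exact le_trans h2 (le_trans (mul_le_mul_of_nonneg_left hclaim hs0.le) h1)

end Pool.Agent.Helper70.LA
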